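import Pool.Agent.X882.Esc.Low3
import Pool.Agent.X882.Esc.Up2

set_option autoImplicit false

/-!
# Shortest escape path in a polynomial lemniscate: polynomial growth of `S(n)`
-/

open Set MeasureTheory MeasureTheory.Measure Filter Topology
open scoped ENNReal

namespace Pool.Agent.Results.MP_071f48_an.PowerBounds

/-- `f` is monic of degree `n` with all roots in the closed unit disc. -/
def Admissible (n : ℕ) (f : Polynomial ℂ) : Prop :=
  f.Monic ∧ f.natDegree = n ∧ ∀ z : ℂ, f.eval z = 0 → ‖z‖ ≤ 1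

/-- the lemniscate region `|f| ≤ 1` -/
def E (f : Polynomial ℂ) : Set ℂ := {z | ‖f.eval z‖ ≤ 1}

/-- infimum of the lengths of the paths in `E f` from `0` to the unit circle -/
noncomputable def L (f : Polynomial ℂ) : ℝ≥0∞ :=
  ⨅ (γ : C(unitInterval, ℂ)) (_ : γ 0 = 0 ∧ ‖γ 1‖ = 1 ∧ range γ ⊆ E f), μH[1] (range γ)

/-- the worst case over admissible polynomials of degree `n` -/
noncomputable def S (n : ℕ) : ℝ≥0∞ :=
  ⨆ (f : Polynomial ℂ) (_ : Admissible n f), L f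

/-- The worst case escape length grows polynomially: `S(n) ≤ 4 n` for all `n ≥ 1`, and
`n ^ (1 / 10 ^ 7) ≤ S(n)` for all large `n`. -/
theorem result : (∀ n : ℕ, 1 ≤ n → S n ≤ 4 * n) ∧
    ∀ᶠ n : ℕ in atTop, ENNReal.ofReal ((n : ℝ) ^ (1 / 10 ^ 7 : ℝ)) ≤ S n := by
  constructor
  · intro n hn
    refine iSup₂_le fun f hf => ?_
    apply ENNReal.le_of_forall_pos_le_add
    intro ε hε _
    have hε0 : (0 : ℝ) < (ε : ℝ) := hε
    obtain ⟨δ, hδ⟩ : ∃ δ : ℝ, δ = min ((ε : ℝ) / 2) (1 / 2) := ⟨_, rfl⟩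
    have hδ0 : 0 < δ := by rw [hδ]; exact lt_min (by linarith) (by norm_num)
    have hδ1 : δ < 1 := by rw [hδ]; exact (min_le_right _ _).trans_lt (by norm_num)
    have hδ2 : 2 * δ ≤ ε := by
      have := min_le_left ((ε : ℝ) / 2) (1 / 2)
      rw [← hδ] at this
      linarith
    obtain ⟨γ, h0, h1, h2, h3⟩ := Pool.Agent.X882.Esc.upper n hn f hf.1 hf.2.1 hf.2.2 hδ0 hδ1
    have h4 : L f ≤ μH[1] (range γ) := by
      refine iInf₂_le γ ⟨h0, h1, ?_⟩
      rintro _ ⟨t, rfl⟩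
      exact h2 t
    refine h4.trans (h3.trans (add_le_add le_rfl ?_))
    rw [← ENNReal.ofReal_coe_nnreal]
    exact ENNReal.ofReal_le_ofReal hδ2
  · have h1 : ∀ᶠ n : ℕ in atTop, (10 ^ 8 : ℝ) ≤ Real.log n :=
      (Real.tendsto_log_atTop.comp tendsto_natCast_atTop_atTop).eventually_ge_atTop _
    filter_upwards [h1] with n hn
    obtain ⟨f, hf1, hf2, hf3, hf4⟩ := Pool.Agent.X882.Esc.lower n hn
    have h2 : ENNReal.ofReal ((n : ℝ) ^ (1 / 10 ^ 7 : ℝ)) ≤ L f :=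
      le_iInf₂ fun γ hγ => hf4 γ hγ.1 hγ.2.1 (fun t => hγ.2.2 ⟨t, rfl⟩)
    exact h2.trans (le_iSup₂ (f := fun f (_ : Admissible n f) => L f) f ⟨hf1, hf2, hf3⟩)

end Pool.Agent.Results.MP_071f48_an.PowerBounds
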